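import Pool.Agent.Q218.HB.Stm5

/-!
# Project HB3 (helper218), job RPW: the functions `(H - E - iη)⁻¹ (H - e_j) u_j`
-/

set_option autoImplicit false

open MeasureTheory

namespace Pool.Agent.Q277.HB3

open Pool.Agent.Q218.HB

/-- orthonormal bases of subspaces, in coordinates -/
theorem onb_exists {Λ : Type} [Fintype Λ] (W : Submodule ℂ (EuclideanSpace ℂ Λ)) :
    ∃ b : Fin (Module.finrank ℂ W) → Λ → ℂ, (∀ i, ∑ x, ‖b i x‖ ^ 2 = 1) ∧
      ∀ w : Λ → ℂ, (WithLp.toLp 2 w : EuclideanSpace ℂ Λ) ∈ W →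
        ∑ x, ‖w x‖ ^ 2 = ∑ i, ‖∑ x, (starRingEnd ℂ) (b i x) * w x‖ ^ 2 := by
  let B := stdOrthonormalBasis ℂ W
  refine ⟨fun i x => (B i : EuclideanSpace ℂ Λ) x, fun i => ?_, fun w hw => ?_⟩
  · have h1 : ‖(B i : EuclideanSpace ℂ Λ)‖ = 1 := B.orthonormal.1 i
    have h2 := EuclideanSpace.norm_sq_eq (B i : EuclideanSpace ℂ Λ)
    rw [h1, one_pow] at h2
    exact h2.symm
  · have h1 := B.sum_sq_norm_inner_right ⟨WithLp.toLp 2 w, hw⟩
    have h2 : ‖(⟨WithLp.toLp 2 w, hw⟩ : W)‖ ^ 2 = ∑ x, ‖w x‖ ^ 2 :=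
      EuclideanSpace.norm_sq_eq (WithLp.toLp 2 w : EuclideanSpace ℂ Λ)
    rw [h2] at h1
    rw [← h1]
    refine Finset.sum_congr rfl fun i _ => ?_
    congr 2
    rw [Submodule.coe_inner, PiLp.inner_apply]
    refine Finset.sum_congr rfl fun x _ => ?_
    rw [RCLike.inner_apply, mul_comm]

theorem two_sq (a b c : ℂ) {t : ℝ} (h : ‖c‖ ^ 2 ≤ t) :
    ‖a - c * b‖ ^ 2 ≤ 2 * ‖a‖ ^ 2 + 2 * t * ‖b‖ ^ 2 := by
  have h1 : ‖a - c * b‖ ≤ ‖a‖ + ‖c‖ * ‖b‖ := by
    rw [← norm_mul]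
    exact norm_sub_le _ _
  have h2 : ‖a - c * b‖ ^ 2 ≤ (‖a‖ + ‖c‖ * ‖b‖) ^ 2 :=
    pow_le_pow_left₀ (norm_nonneg _) h1 2
  have h3 : ‖c‖ ^ 2 * ‖b‖ ^ 2 ≤ t * ‖b‖ ^ 2 := mul_le_mul_of_nonneg_right h (sq_nonneg _)
  nlinarith [sq_nonneg (‖a‖ - ‖c‖ * ‖b‖)]

theorem pt_dist {E η e : ℝ} (h : |e - E| ≤ η) :
    ‖(e : ℂ) - pt E η‖ ^ 2 ≤ 2 * η ^ 2 := by
  rw [← Complex.normSq_eq_norm_sq, Complex.normSq_apply]
  have h1 : ((e : ℂ) - pt E η).re = e - E := by simp [pt]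
  have h2 : ((e : ℂ) - pt E η).im = -η := by simp [pt]
  rw [h1, h2]
  have h3 : (e - E) ^ 2 ≤ η ^ 2 := by
    rw [← sq_abs]
    exact pow_le_pow_left₀ (abs_nonneg _) h 2
  nlinarith

/-- the combination of the functions `G(·, y)`, `y ∈ F` -/
theorem comb {Λ : Type} [Fintype Λ] [DecidableEq Λ] (H G' : Matrix Λ Λ ℂ) (z a : ℂ) (v : Λ → ℂ)
    (F : Finset Λ) (hG : G' * (H - z • (1 : Matrix Λ Λ ℂ)) = 1)
    (hF : ∀ x, x ∉ F → ∑ y, H x y * v y = a * v x) (x : Λ) :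
    v x - (a - z) * ∑ y, G' x y * v y =
      ∑ y ∈ F, (∑ t, H y t * v t - a * v y) * G' x y := by
  have h1 : ∑ y ∈ F, (∑ t, H y t * v t - a * v y) * G' x y =
      ∑ y, (∑ t, H y t * v t - a * v y) * G' x y := by
    refine Finset.sum_subset (Finset.subset_univ _) fun y _ hy => ?_
    rw [hF y hy, sub_self, zero_mul]
  rw [h1]
  have h2 : G'.mulVec ((H - z • (1 : Matrix Λ Λ ℂ)).mulVec v) = v := by
    rw [Matrix.mulVec_mulVec, hG, Matrix.one_mulVec]
  have h3 := congrFun h2 x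
  have h4 : ∀ y, (H - z • (1 : Matrix Λ Λ ℂ)).mulVec v y = ∑ t, H y t * v t - z * v y := by
    intro y
    rw [Matrix.sub_mulVec, Matrix.smul_mulVec, Matrix.one_mulVec]
    rfl
  have h5 : v x = ∑ y, G' x y * (∑ t, H y t * v t - z * v y) := by
    rw [← h3]
    simp only [Matrix.mulVec, dotProduct] at h4 ⊢
    exact Finset.sum_congr rfl fun y _ => by rw [h4]
  rw [Finset.mul_sum]
  nth_rewrite 1 [h5]
  rw [← Finset.sum_sub_distrib]
  refine Finset.sum_congr rfl fun y _ => ?_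
  ring

theorem rpw : S_RPW := by
  classical
  intro hINV hOPB Λ J _ _ _ h V u e F hsym hB hF E η hη
  have hzim : (pt E η).im = η := by simp [pt]
  obtain ⟨-, hG2, hG3⟩ := hINV Λ h V (pt E η) hsym (by rw [hzim]; exact hη.ne')
  obtain ⟨W, hW⟩ : ∃ W : Submodule ℂ (EuclideanSpace ℂ Λ), W = Submodule.span ℂ
    ((F.image fun y => (WithLp.toLp 2 fun x => G h V (pt E η) x y : EuclideanSpace ℂ Λ) :
      Finset (EuclideanSpace ℂ Λ)) : Set (EuclideanSpace ℂ Λ)) := ⟨_, rfl⟩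
  have hdim : Module.finrank ℂ W ≤ F.card := by
    rw [hW]
    exact (finrank_span_finset_le_card _).trans Finset.card_image_le
  obtain ⟨b, hb1, hb2⟩ := onb_exists W
  have hmem : ∀ j, (WithLp.toLp 2 fun x => u j x - ((e j : ℂ) - pt E η) *
      ∑ y, G h V (pt E η) x y * u j y : EuclideanSpace ℂ Λ) ∈ W := by
    intro j
    have h1 : (WithLp.toLp 2 fun x => u j x - ((e j : ℂ) - pt E η) *
        ∑ y, G h V (pt E η) x y * u j y : EuclideanSpace ℂ Λ) =
        ∑ y ∈ F, (∑ t, Hm h V y t * u j t - (e j : ℂ) * u j y) •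
          (WithLp.toLp 2 fun x => G h V (pt E η) x y : EuclideanSpace ℂ Λ) := by
      ext x
      rw [WithLp.ofLp_sum, Finset.sum_apply]
      exact comb (Hm h V) (G h V (pt E η)) (pt E η) (e j) (u j) F hG2 (hF j) x
    rw [h1, hW]
    refine Submodule.sum_mem _ fun y hy => Submodule.smul_mem _ _ (Submodule.subset_span ?_)
    exact Finset.mem_coe.2 (Finset.mem_image_of_mem _ hy)
  -- the two families of coefficients
  have hA : ∀ i, ∑ j, ‖∑ x, (starRingEnd ℂ) (b i x) * u j x‖ ^ 2 ≤ 1 := by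
    intro i
    refine (hB fun x => (starRingEnd ℂ) (b i x)).trans ?_
    rw [← hb1 i]
    refine Finset.sum_le_sum fun x _ => ?_
    rw [RCLike.norm_conj]
  have hC : ∀ i, ∑ j, ‖∑ x, (starRingEnd ℂ) (b i x) * ∑ y, G h V (pt E η) x y * u j y‖ ^ 2 ≤
      1 / η ^ 2 := by
    intro i
    have h1 : ∀ j, ∑ x, (starRingEnd ℂ) (b i x) * ∑ y, G h V (pt E η) x y * u j y =
        ∑ y, (∑ x, G h V (pt E η) y x * (starRingEnd ℂ) (b i x)) * u j y := by
      intro j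
      simp only [Finset.mul_sum, Finset.sum_mul]
      rw [Finset.sum_comm]
      refine Finset.sum_congr rfl fun y _ => Finset.sum_congr rfl fun x _ => ?_
      rw [hG3 y x]
      ring
    simp only [h1]
    refine (hB fun y => ∑ x, G h V (pt E η) y x * (starRingEnd ℂ) (b i x)).trans ?_
    refine (hOPB Λ h V (pt E η) hsym (by rw [hzim]; exact hη) _).trans ?_
    rw [hzim]
    refine div_le_div_of_nonneg_right ?_ (sq_nonneg _)
    rw [← hb1 i]
    refine Finset.sum_le_sum fun x _ => ?_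
    rw [RCLike.norm_conj]
  calc ∑ j with |e j - E| ≤ η, ∑ x, ‖u j x - ((e j : ℂ) - pt E η) *
        ∑ y, G h V (pt E η) x y * u j y‖ ^ 2
      = ∑ j with |e j - E| ≤ η, ∑ i, ‖∑ x, (starRingEnd ℂ) (b i x) *
          (u j x - ((e j : ℂ) - pt E η) * ∑ y, G h V (pt E η) x y * u j y)‖ ^ 2 :=
        Finset.sum_congr rfl fun j _ => hb2 _ (hmem j)
    _ ≤ ∑ j with |e j - E| ≤ η, ∑ i, (2 * ‖∑ x, (starRingEnd ℂ) (b i x) * u j x‖ ^ 2 +
          2 * (2 * η ^ 2) * ‖∑ x, (starRingEnd ℂ) (b i x) *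
            ∑ y, G h V (pt E η) x y * u j y‖ ^ 2) := by
        refine Finset.sum_le_sum fun j hj => Finset.sum_le_sum fun i _ => ?_
        have hj' : |e j - E| ≤ η := (Finset.mem_filter.1 hj).2
        have h1 : ∑ x, (starRingEnd ℂ) (b i x) *
            (u j x - ((e j : ℂ) - pt E η) * ∑ y, G h V (pt E η) x y * u j y) =
            ∑ x, (starRingEnd ℂ) (b i x) * u j x - ((e j : ℂ) - pt E η) *
              ∑ x, (starRingEnd ℂ) (b i x) * ∑ y, G h V (pt E η) x y * u j y := by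
          rw [Finset.mul_sum, ← Finset.sum_sub_distrib]
          refine Finset.sum_congr rfl fun x _ => ?_
          ring
        rw [h1]
        exact two_sq _ _ _ (pt_dist hj')
    _ ≤ ∑ j, ∑ i, (2 * ‖∑ x, (starRingEnd ℂ) (b i x) * u j x‖ ^ 2 +
          2 * (2 * η ^ 2) * ‖∑ x, (starRingEnd ℂ) (b i x) *
            ∑ y, G h V (pt E η) x y * u j y‖ ^ 2) := by
        refine Finset.sum_le_sum_of_subset_of_nonneg (Finset.filter_subset _ _) fun j _ _ => ?_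
        positivity
    _ = ∑ i, (2 * ∑ j, ‖∑ x, (starRingEnd ℂ) (b i x) * u j x‖ ^ 2 +
          2 * (2 * η ^ 2) * ∑ j, ‖∑ x, (starRingEnd ℂ) (b i x) *
            ∑ y, G h V (pt E η) x y * u j y‖ ^ 2) := by
        rw [Finset.sum_comm]
        refine Finset.sum_congr rfl fun i _ => ?_
        rw [Finset.sum_add_distrib, ← Finset.mul_sum, ← Finset.mul_sum]
    _ ≤ ∑ _i : Fin (Module.finrank ℂ W), (6 : ℝ) := by
        refine Finset.sum_le_sum fun i _ => ?_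
        have h1 := hA i
        have h2 : 2 * (2 * η ^ 2) * ∑ j, ‖∑ x, (starRingEnd ℂ) (b i x) *
            ∑ y, G h V (pt E η) x y * u j y‖ ^ 2 ≤ 2 * (2 * η ^ 2) * (1 / η ^ 2) :=
          mul_le_mul_of_nonneg_left (hC i) (by positivity)
        have h3 : 2 * (2 * η ^ 2) * (1 / η ^ 2) = 4 := by
          field_simp
          norm_num
        linarith
    _ = 6 * Module.finrank ℂ W := by
        rw [Finset.sum_const, Finset.card_univ, Fintype.card_fin, nsmul_eq_mul, mul_comm]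
    _ ≤ 6 * F.card := by
        have : (Module.finrank ℂ W : ℝ) ≤ F.card := by exact_mod_cast hdim
        linarith

end Pool.Agent.Q277.HB3
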